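import Mathlib
import Pool.Agent.Helper761.Moore

set_option autoImplicit false

namespace Pool.Agent.Results.MP_e17db7_gt.PseudocompactMoore

/-- There is a Moore space (a regular Hausdorff space with a development) which is locally compact,
locally connected and pseudocompact, but not metrizable. -/
theorem result :
    ∃ (X : Type) (_ : TopologicalSpace X),
      T2Space X ∧ RegularSpace X ∧
      (∃ G : ℕ → Set (Set X), (∀ n, ∀ V ∈ G n, IsOpen V) ∧ (∀ n, ⋃₀ G n = Set.univ) ∧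
        ∀ (x : X) (U : Set X), IsOpen U → x ∈ U → ∃ n, ⋃₀ {V ∈ G n | x ∈ V} ⊆ U) ∧
      LocallyCompactSpace X ∧ LocallyConnectedSpace X ∧
      (∀ f : X → ℝ, Continuous f → ∃ C : ℝ, ∀ x, |f x| ≤ C) ∧
      ¬ TopologicalSpace.MetrizableSpace X := by
  obtain ⟨F⟩ := Pool.Agent.Helper761.exists_fam
  refine ⟨Pool.Agent.Helper761.Sp F, inferInstance, inferInstance, inferInstance,
    ⟨Pool.Agent.Helper761.Sp.cov F, fun n V hV => Pool.Agent.Helper761.Sp.isOpen_of_mem_cov hV,
      Pool.Agent.Helper761.Sp.sUnion_cov, fun x U hU hx => Pool.Agent.Helper761.Sp.star_cov x hU hx⟩,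
    inferInstance, inferInstance, fun f hf => ?_, Pool.Agent.Helper761.Sp.not_metrizable F⟩
  obtain ⟨C1, h1⟩ := Pool.Agent.Helper761.Sp.bddAbove_of_continuous hf
  obtain ⟨C2, h2⟩ := Pool.Agent.Helper761.Sp.bddAbove_of_continuous hf.neg
  refine ⟨max C1 C2, fun x => abs_le.mpr ⟨?_, (h1 ⟨x, rfl⟩).trans (le_max_left _ _)⟩⟩
  have h3 : -f x ≤ C2 := h2 ⟨x, rfl⟩
  have h4 := le_max_right C1 C2
  linarith

end Pool.Agent.Results.MP_e17db7_gt.PseudocompactMoore
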